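import Pool.Agent.H23.BP

set_option autoImplicit false

namespace Pool.Agent.Results.MP_0403ae_lc.Hard
open Pool.Agent.H11.PT Pool.Agent.H23.BP List

/-- differences of consecutive entries of `P` followed by `e` -/
def gaps (P : List ℕ) (e : ℕ) : List ℕ := (P.zip (P.tail ++ [e])).map fun p => p.2 - p.1

/-- the positions of the letter `i` in the word `S`, in increasing order -/
def pos (S : List ℕ) (i : ℕ) : List ℕ := (range S.length).filter fun p => S.getD p 0 = i

/-- the cyclic distances of the letter `i` in the word `S` -/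
def dist (S : List ℕ) (i : ℕ) : List ℕ := gaps (pos S i) (S.length + (pos S i).headD 0)

/-- the total demand: `d i` is the number of components of the vector number `i` -/
def tot (α : List (List ℕ)) : ℕ := (α.map length).sum

/-- every vector is a decomposition vector of the total demand -/
def Valid (α : List (List ℕ)) : Prop :=
  α ≠ [] ∧ ∀ v ∈ α, v ≠ [] ∧ (∀ x ∈ v, 0 < x) ∧ v.Pairwise (· ≥ ·) ∧ v.sum = tot α

/-- feasibility -/
def Feas (α : List (List ℕ)) : Prop :=
  ∃ S : List ℕ, S.length = tot α ∧ (∀ x ∈ S, x < α.length) ∧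
    ∀ i < α.length, S.count i = (α.getD i []).length ∧ dist S i ~ α.getD i []

/-- the value of a binary string, least significant digit first -/
def val (w : List Bool) : ℕ := Nat.ofDigits 2 (w.map Bool.toNat)

theorem g1 (p e : ℕ) : gaps [p] e = [e - p] := rfl
theorem g2 (p q e : ℕ) (P : List ℕ) : gaps (p :: q :: P) e = (q - p) :: gaps (q :: P) e := rfl

theorem all1 (c : ℕ → ℕ) (e : ℕ) (P : List ℕ) : ∀ p, (∀ x ∈ P, c (x - 1) = c x) → c (e - 1) = c e →
    (gaps (p :: P) e).countP (· ≠ 1) = 0 → ∀ x ∈ p :: P, c x = c e := by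
  induction P with
  | nil =>
    intro p _ b h x m
    simp [g1] at h m
    rw [m, ← b]; congr 1; omega
  | cons q P ih =>
    intro p a b h x m
    rw [g2, countP_cons] at h
    have := ih q (fun x m => a x (by simp [m])) b (by omega)
    rcases mem_cons.1 m with rfl | m
    · have k : q - x = 1 := by by_contra k; simp [k] at h
      rw [← this q (by simp), ← a q (by simp)]; congr 1; omega
    · exact this x m

theorem one (c : ℕ → ℕ) (e : ℕ) (P : List ℕ) : ∀ p, (∀ x ∈ P, c (x - 1) = c x) → c (e - 1) = c e →
    (gaps (p :: P) e).countP (· ≠ 1) ≤ 1 → ∀ x ∈ p :: P, c x = c p ∨ c x = c e := by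
  induction P with
  | nil => intro p _ _ _ x m; simp at m; simp [m]
  | cons q P ih =>
    intro p a b h x m
    rw [g2, countP_cons] at h
    rcases mem_cons.1 m with rfl | m
    · simp
    by_cases k : q - p = 1
    · have := ih q (fun x m => a x (by simp [m])) b (by omega) x m
      rwa [← a q (by simp), show q - 1 = p by omega] at this
    · exact .inr (all1 c e P q (fun x m => a x (by simp [m])) b (by simp [k] at h; simpa using h) x m)

theorem allM (M e : ℕ) (h0 : 0 < M) (P : List ℕ) : ∀ p, (∀ x ∈ gaps (p :: P) e, x = M) →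
    ∀ j ≤ P.length, p + j * M ∈ p :: P := by
  induction P with
  | nil => intro p _ j h; simp at h; simp [h]
  | cons q P ih =>
    intro p a j h
    rw [g2, forall_mem_cons] at a
    rcases j with _ | j
    · simp
    · have := ih q a.2 j (by simpa using h)
      rw [show p + (j + 1) * M = q + j * M by rw [add_mul]; omega]
      exact mem_cons_of_mem _ this

theorem gr (st e n : ℕ) : ∀ s, gaps (range' s (n + 1) st) e = replicate n st ++ [e - (s + n * st)] := by
  induction n with
  | zero => intro s; simp [g1]
  | succ n ih =>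
    intro s
    have := ih (s + st)
    rw [range'_succ] at this
    rw [range'_succ, range'_succ, g2, this, replicate_succ]
    simp only [cons_append, add_mul, one_mul, Nat.add_sub_cancel_left]
    congr 4; omega

theorem mem_pos {S : List ℕ} {i x : ℕ} : x ∈ pos S i ↔ x < S.length ∧ S.getD x 0 = i := by simp [pos]

theorem len_gaps (P : List ℕ) (e : ℕ) : (gaps P e).length = P.length := by
  cases P <;> simp [gaps]

theorem len_pos (S : List ℕ) (i : ℕ) : (pos S i).length = S.count i := by
  rw [pos, ← countP_eq_length_filter]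
  conv_rhs => rw [show S = (range S.length).map (S.getD · 0) from
    ext_getElem (by simp) fun n a b => by simp [a], count, countP_map]
  congr 1

abbrev I := ℕ × ℕ × List ℕ

def vec (D a : ℕ) : List ℕ := (D + 1 - a) :: replicate (a - 1) 1
def ins (y : I) : List (List ℕ) := replicate y.1 (y.2.1 + 1) :: y.2.2.map (vec (y.1 * (y.2.1 + 1)))
def red (y : I) : List (List ℕ) := if y.1 = 0 then [[1]] else ins y

theorem red_pt : PT red := by unfold red ins vec; fun_prop

def V (y : I) : Prop := y.2.2.sum = y.1 * y.2.1 ∧ ∀ a ∈ y.2.2, y.2.1 < 5 * a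

variable {y : I}

theorem tot_ins (h : V y) : tot (ins y) = y.1 * (y.2.1 + 1) := by
  simp only [tot, ins, map_cons, sum_cons, length_replicate, map_map]
  rw [map_congr_left (g := id) fun a m => by have := h.2 a m; simp [vec]; omega, map_id, h.1]; ring

theorem valid (h : V y) (k : y.1 ≠ 0) : Valid (ins y) := by
  refine ⟨by simp [ins], fun v m => ?_⟩
  rw [tot_ins h]
  rcases mem_cons.1 m with rfl | m
  · simp [k, pairwise_replicate]
  · obtain ⟨a, m', rfl⟩ := mem_map.1 m
    have := h.2 a m'
    have := le_sum_of_mem m'
    have := h.1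
    simp [vec, pairwise_replicate, mul_add]
    omega

theorem ins_get {i : ℕ} (b : i < y.2.2.length) :
    (ins y).getD (i + 1) [] = vec (y.1 * (y.2.1 + 1)) (y.2.2.getD i 0) := by
  simp [ins, b]

theorem apos (h : V y) {i : ℕ} (b : i < y.2.2.length) : 0 < y.2.2.getD i 0 := by
  have := h.2 _ (getElem_mem b)
  rw [getD_eq_getElem _ _ b]; omega

theorem fwd (h : V y) (k : y.1 ≠ 0) (H : BP y) : Feas (ins y) := by
  obtain ⟨β, h1, h2⟩ := H
  set M := y.2.1 + 1 with hM
  let T : ℕ → ℕ → ℕ := fun b j => ∑ i ∈ Finset.range j, if β i = b then y.2.2.getD i 0 else 0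
  have mono : ∀ b j l, j ≤ l → T b j ≤ T b l := fun b j l a =>
    Finset.sum_le_sum_of_subset (Finset.range_mono a)
  have sc : ∀ b j, T b (j + 1) = T b j + if β j = b then y.2.2.getD j 0 else 0 := fun b j =>
    Finset.sum_range_succ _ _
  let f : ℕ → ℕ := fun x => sInf {j | x % M ≤ T (x / M) j}
  have top : ∀ x < y.1 * M, y.2.2.length ∈ {j | x % M ≤ T (x / M) j} := fun x a => by
    have := h2 (x / M) (Nat.div_lt_of_lt_mul (by rwa [mul_comm]))
    have := Nat.mod_lt x (show 0 < M by omega)
    show _ ≤ T _ _
    simp only [T]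
    omega
  have le : ∀ x < y.1 * M, ∀ j, f x ≤ j ↔ x % M ≤ T (x / M) j := fun x a j =>
    ⟨fun b => (Nat.sInf_mem ⟨_, top x a⟩).trans (mono _ _ _ b), fun b => Nat.sInf_le b⟩
  let S := (range (y.1 * M)).map f
  have ln : S.length = y.1 * M := by simp [S]
  have mp : ∀ i x, x ∈ pos S i ↔ x < y.1 * M ∧ f x = i := fun i x => by
    rw [mem_pos, ln]
    exact and_congr_right fun a => by simp [S, a]
  have srt : ∀ i, (pos S i).Pairwise (· < ·) := fun i => pairwise_lt_range.filter _
  have key : ∀ i < (ins y).length, dist S i ~ (ins y).getD i [] := by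
    intro i a
    rcases i with _ | i
    · obtain ⟨n, e⟩ := Nat.exists_eq_succ_of_ne_zero k
      have : pos S 0 = range' 0 (n + 1) M := (srt 0).eq_of_mem_iff (pairwise_lt_range' _ (by omega)) fun x => by
        rw [mp, mem_range']
        constructor
        · rintro ⟨b, c⟩
          have := (le x b 0).1 c.le
          refine ⟨x / M, Nat.div_lt_of_lt_mul (by rwa [mul_comm, ← Nat.succ_eq_add_one, ← e]), ?_⟩
          have := Nat.div_add_mod x M
          simp [T] at *; omega
        · rintro ⟨j, b, rfl⟩
          have c : 0 + M * j < y.1 * M := by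
            rw [e, zero_add, mul_comm]; exact Nat.mul_lt_mul_of_pos_right b (by omega)
          exact ⟨c, Nat.le_zero.1 ((le _ c 0).2 (by simp))⟩
      rw [dist, this, gr, ln]
      simp only [ins, getD_cons_zero, e, range'_succ, headD_cons, ← hM]
      rw [show (n + 1) * M + 0 - (0 + n * M) = M by rw [add_mul]; omega, ← replicate_succ']
    · have b : i < y.2.2.length := by simpa [ins] using a
      obtain ⟨n, e⟩ := Nat.exists_eq_succ_of_ne_zero (apos h b).ne'
      have c := sc (β i) i
      have d := mono (β i) _ _ (Nat.succ_le_of_lt b)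
      have d' : T (β i) y.2.2.length = y.2.1 := h2 _ (h1 i b)
      have d2 := Nat.mul_le_mul_right M (Nat.succ_le_of_lt (h1 i b))
      rw [if_pos rfl] at c
      rw [Nat.succ_mul] at d2
      simp only [Nat.succ_eq_add_one] at *
      have : pos S (i + 1) = range' (β i * M + T (β i) i + 1) (n + 1) 1 :=
        (srt _).eq_of_mem_iff pairwise_lt_range' fun x => by
        rw [mp, mem_range'_1]
        constructor
        · rintro ⟨b, c⟩
          have u := (le x b (i + 1)).1 c.le
          have v := mt (le x b i).2 (by omega)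
          have w := sc (x / M) i
          have := Nat.div_add_mod' x M
          split_ifs at w with z
          · rw [z]; omega
          · omega
        · rintro ⟨u, v⟩
          have w : x / M = β i := Nat.div_eq_of_lt_le (by omega) (by rw [add_mul]; omega)
          have := Nat.div_add_mod' x M
          have z : x < y.1 * M := by omega
          have u := (le x z (i + 1)).2 (by rw [w] at *; omega)
          have v := mt (le x z i).1 (by rw [w] at *; omega)
          exact ⟨z, by omega⟩
      rw [dist, this, gr, ln, ins_get b, e, vec]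
      simp only [range'_succ, headD_cons, ← hM]
      refine perm_append_comm.trans (.of_eq ?_)
      simp only [singleton_append, Nat.add_sub_cancel]
      congr 1; omega
  refine ⟨S, by rw [ln, tot_ins h], fun x m => ?_, fun i a => ⟨?_, key i a⟩⟩
  · obtain ⟨x, m', rfl⟩ := mem_map.1 m
    have := (le x (mem_range.1 m') _).2 (top x (mem_range.1 m'))
    simp [ins]; omega
  · rw [← (key i a).length_eq, dist, len_gaps, len_pos]

theorem bwd (h : V y) (k : y.1 ≠ 0) (H : Feas (ins y)) : BP y := by
  obtain ⟨S, ln, -, h2⟩ := H
  rw [tot_ins h] at ln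
  set M := y.2.1 + 1 with hM
  have M0 : 0 < M := by omega
  obtain ⟨l0, d0⟩ := h2 0 (by simp [ins])
  rw [← len_pos] at l0
  simp only [ins, getD_cons_zero, length_replicate, ← hM, dist] at l0 d0
  obtain ⟨p, P, e⟩ := exists_cons_of_length_pos (l0 ▸ Nat.pos_of_ne_zero k)
  rw [e] at l0 d0
  have s0 := allM M _ M0 P p fun x m => eq_of_mem_replicate (d0.subset m)
  rw [← e] at s0
  simp only [mem_pos, length_cons] at s0 l0
  have pM : p < M := by
    have := (s0 _ le_rfl).1
    rw [ln, ← l0, add_mul] at this; omega
  have sep : ∀ x < S.length, S.getD x 0 ≠ 0 → (x + M - p) % M ≠ 0 := fun x a b c => b <| by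
    obtain ⟨j, d⟩ := Nat.dvd_of_mod_eq_zero c
    rcases j with _ | j
    · omega
    rw [mul_add] at d
    have := (s0 j ?_).2
    · rwa [show p + j * M = x by rw [mul_comm]; omega] at this
    · by_contra f
      have := Nat.mul_le_mul_left M (show y.1 ≤ j by omega)
      rw [mul_comm] at ln; omega
  let c : ℕ → ℕ := fun x => (x + M - p) / M % y.1
  have c1 : ∀ x, (x + M - p) % M ≠ 0 → c (x - 1) = c x := fun x a => by
    rcases x with _ | x
    · rfl
    simp only [c, Nat.add_sub_cancel]
    rw [show x + 1 + M - p = x + M - p + 1 by omega] at a ⊢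
    rw [Nat.succ_div_of_not_dvd fun b => a (Nat.mod_eq_zero_of_dvd b)]
  have pe : ∀ x, S.length + x + M - p = x + M - p + M * y.1 := fun x => by rw [ln, mul_comm]; omega
  have same : ∀ i < y.2.2.length, (pos S (i + 1)).length = y.2.2.getD i 0 ∧
      ∀ x ∈ pos S (i + 1), c x = c ((pos S (i + 1)).headD 0) := fun i b => by
    obtain ⟨l, d⟩ := h2 (i + 1) (by simpa [ins] using b)
    have := apos h b
    rw [ins_get b] at l d
    rw [← len_pos, vec, length_cons, length_replicate] at l
    refine ⟨by omega, ?_⟩
    obtain ⟨q, Q, e⟩ := exists_cons_of_length_pos (l := pos S (i + 1)) (by omega)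
    have ns : ∀ x ∈ q :: Q, (x + M - p) % M ≠ 0 := fun x m => by
      rw [← e, mem_pos] at m
      exact sep x m.1 (by omega)
    rw [dist, e] at d
    rw [e]
    intro x m
    have := one c (S.length + (q :: Q).headD 0) Q q (fun x m => c1 x (ns x (by simp [m]))) (c1 _ (by
      rw [headD_cons, pe, Nat.add_mul_mod_self_left]; exact ns q (by simp))) (by
      rw [d.countP_eq, vec, countP_cons, countP_replicate]; simp; split_ifs <;> simp) x m
    simp only [headD_cons, c, pe] at this ⊢
    rwa [Nat.add_mul_div_left _ _ M0, Nat.add_mod_right, or_self] at this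
  refine ⟨fun i => c ((pos S (i + 1)).headD 0), fun i _ => Nat.mod_lt _ (by omega), ?_⟩
  generalize hβ : (fun i => c ((pos S (i + 1)).headD 0)) = β
  simp only [show ∀ i, c ((pos S (i + 1)).headD 0) = β i from fun i => by rw [← hβ]] at same ⊢
  have bl : ∀ i, β i < y.1 := fun i => by rw [← hβ]; exact Nat.mod_lt _ (by omega)
  have le : ∀ b ∈ Finset.range y.1, ∑ i ∈ Finset.range y.2.2.length,
      (if β i = b then y.2.2.getD i 0 else 0) ≤ y.2.1 := fun b _ => by
    rw [← Finset.sum_filter, Finset.sum_congr rfl (g := fun i => (pos S (i + 1)).toFinset.card)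
      fun i m => by
        rw [← (same i (by simp at m; exact m.1)).1]
        exact (toFinset_card_of_nodup (nodup_range.filter _)).symm,
      ← Finset.card_biUnion fun i _ j _ a => by
        simp only [Function.onFun, Finset.disjoint_left, mem_toFinset, mem_pos]
        omega]
    conv_rhs => rw [show y.2.1 = (Finset.Ico 1 M).card by simp [hM]]
    have u : ∀ x ∈ ((Finset.range y.2.2.length).filter fun i => β i = b).biUnion
        fun i => (pos S (i + 1)).toFinset, x < S.length ∧ (x + M - p) % M ≠ 0 ∧ c x = b := by
      intro x m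
      obtain ⟨i, a, m⟩ := Finset.mem_biUnion.1 m
      simp only [Finset.mem_filter, Finset.mem_range, mem_toFinset] at a m
      have := mem_pos.1 m
      exact ⟨this.1, sep x this.1 (by omega), a.2 ▸ (same i a.1).2 x m⟩
    refine Finset.card_le_card_of_injOn (fun x => (x + M - p) % M) (fun x m => ?_) fun x m z m' a => ?_
    · have := (u x m).2.1
      have := Nat.mod_lt (x + M - p) M0
      simp only [Finset.coe_Ico, Set.mem_Ico]; omega
    · have a1 := u x m
      have a2 := u z m'
      have : x + M - p ≡ z + M - p [MOD M * y.1] := by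
        rw [Nat.ModEq, Nat.mod_mul, Nat.mod_mul]
        exact congrArg₂ _ a (congrArg _ (a1.2.2.trans a2.2.2.symm))
      have t : x + M ≡ z + M [MOD M * y.1] := by
        have := this.add_right p
        rwa [show x + M - p + p = x + M by omega, show z + M - p + p = z + M by omega] at this
      rw [mul_comm] at ln
      exact (t.add_right_cancel' M).eq_of_lt_of_lt (by omega) (by omega)
  have := (Finset.sum_eq_sum_iff_of_le le).1 (by
    rw [Finset.sum_comm, Finset.sum_congr rfl (g := fun i => y.2.2.getD i 0) fun i _ => by simp [bl i]]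
    simp only [Finset.sum_const, Finset.card_range, smul_eq_mul, ← h.1]
    generalize y.2.2 = l
    induction l with
    | nil => rfl
    | cons a l ih => rw [length_cons, Finset.sum_range_succ', sum_cons, ← ih]; simp [add_comm])
  exact fun b a => this b (Finset.mem_range.2 a)

theorem hard : HardFor InNP Valid Feas := by
  refine hard_BP.red red red_pt fun y h => ?_
  unfold red
  split_ifs with k
  · refine ⟨by simp [Valid, tot], iff_of_true ⟨id, fun i b => ?_, by simp [k]⟩
      ⟨[0], by simp [tot, dist, pos, gaps]⟩⟩
    have := apos h b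
    have := le_sum_of_mem (getElem_mem b)
    have := h.1
    rw [getD_eq_getElem _ _ b] at *
    simp [k] at *; omega
  · exact ⟨valid h k, fwd h k, bwd h k⟩

theorem result : (NPHard fun α => Valid α ∧ Feas α) ∧
    NPHard fun w : List (List (List Bool)) => Valid (w.map (map val)) ∧ Feas (w.map (map val)) := by
  refine ⟨hard.npHard, (hard.red (map (map toBits)) ?_ fun α h => ?_).npHard⟩
  · exact PT.map PT.id (PT.map (by fun_prop) (PT.toBits (by fun_prop)))
  · have : (α.map (map toBits)).map (map val) = α := by
      simp [map_map, Function.comp_def, val, ofDigits_toBits]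
    simp only [this, h, true_and]

end Pool.Agent.Results.MP_0403ae_lc.Hard
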